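import Pool.Agent.Q113.XM.Stm

/-!
Project XM (helper113), job TYC (helper150): structure from the cover, clique side.
-/

set_option autoImplicit false

namespace Pool.Agent.Q150.XM

open Finset Pool.Agent.W890.SF Pool.Agent.W593.IR Pool.Agent.Q54.EM Pool.Agent.Q113.XM

/-- the missing sets at a vertex are at most the non-edges through it -/
lemma ms_le {V : Type} [DecidableEq V] (k : ℕ) (hk : 1 ≤ k) (F : Finset (Finset V)) (T : Finset V)
    (v : V) (hv : v ∈ T) :
    ms k F T v ≤ (((T.powersetCard k).filter (fun e => e ∉ F)).filter (fun e => v ∈ e)).card := by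
  unfold ms
  apply card_le_card_of_injOn (fun S => insert v S)
  · intro S hS
    simp only [coe_filter, mem_powersetCard, Set.mem_ofPred_eq] at hS ⊢
    obtain ⟨⟨h1, h2⟩, h3⟩ := hS
    have hvS : v ∉ S := fun h => (mem_erase.mp (h1 h)).1 rfl
    rw [mem_filter, mem_powersetCard]
    refine ⟨⟨⟨insert_subset hv (h1.trans (erase_subset _ _)), ?_⟩, h3⟩, mem_insert_self _ _⟩
    rw [card_insert_of_notMem hvS, h2]
    omega
  · intro S hS S' hS' h
    simp only [coe_filter, mem_powersetCard, Set.mem_ofPred_eq] at hS hS'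
    have hvS : v ∉ S := fun h => (mem_erase.mp (hS.1.1 h)).1 rfl
    have hvS' : v ∉ S' := fun h => (mem_erase.mp (hS'.1.1 h)).1 rfl
    simp only at h
    rw [← erase_insert hvS, h, erase_insert hvS']

lemma ms_sum {V : Type} [DecidableEq V] (k : ℕ) (hk : 1 ≤ k) (F : Finset (Finset V))
    (T : Finset V) : ∑ v ∈ T, ms k F T v ≤ k * ((T.powersetCard k).filter (fun e => e ∉ F)).card := by
  set N := (T.powersetCard k).filter (fun e => e ∉ F) with hN
  calc ∑ v ∈ T, ms k F T v ≤ ∑ v ∈ T, (N.filter (fun e => v ∈ e)).card :=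
        sum_le_sum fun v hv => ms_le k hk F T v hv
    _ = ∑ e ∈ N, (T.filter (fun v => v ∈ e)).card := by
        simp only [card_filter]
        exact sum_comm
    _ ≤ ∑ e ∈ N, k := by
        apply sum_le_sum
        intro e he
        have h1 := (mem_powersetCard.mp (mem_filter.mp he).1).2
        rw [← h1]
        apply card_le_card
        intro v hv
        exact (mem_filter.mp hv).2
    _ = k * N.card := by
        rw [sum_const, smul_eq_mul, mul_comm]

lemma ms_mono {V : Type} [DecidableEq V] (k : ℕ) (F : Finset (Finset V)) {T U : Finset V}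
    (h : T ⊆ U) (v : V) : ms k F T v ≤ ms k F U v := by
  unfold ms
  apply card_le_card
  apply filter_subset_filter
  exact powersetCard_mono (erase_subset_erase _ h)

lemma choose_diff (a b n k : ℕ) (hk : 1 ≤ k) (ha : a ≤ n) :
    (a.choose k : ℝ) - b.choose k ≤ ((a - b : ℕ) : ℝ) * (n : ℝ) ^ (k - 1) := by
  by_cases hab : a ≤ b
  · have h1 : a.choose k ≤ b.choose k := Nat.choose_le_choose k hab
    have h2 : (a.choose k : ℝ) ≤ b.choose k := by exact_mod_cast h1
    have h3 : (0 : ℝ) ≤ ((a - b : ℕ) : ℝ) * (n : ℝ) ^ (k - 1) := by positivity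
    linarith
  · push Not at hab
    obtain ⟨d, rfl⟩ := Nat.exists_eq_add_of_le hab.le
    obtain ⟨k, rfl⟩ := Nat.exists_eq_add_of_le' hk
    rw [Nat.add_sub_cancel_left, Nat.add_sub_cancel]
    have h1 : ∀ d : ℕ, b + d ≤ n → ((b + d).choose (k + 1) : ℝ) - b.choose (k + 1) ≤
        (d : ℝ) * (n : ℝ) ^ k := by
      intro d
      induction d with
      | zero => intro _; simp
      | succ d ih =>
        intro hd
        have h2 := ih (by omega)
        have h3 : ((b + (d + 1)).choose (k + 1) : ℝ) =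
            (b + d).choose k + (b + d).choose (k + 1) := by
          rw [← add_assoc, Nat.choose_succ_succ]
          push_cast
          ring
        have h4 : ((b + d).choose k : ℝ) ≤ (n : ℝ) ^ k := by
          have h5 : (b + d).choose k ≤ (b + d) ^ k := Nat.choose_le_pow _ _
          have h6 : (b + d) ^ k ≤ n ^ k := Nat.pow_le_pow_left (by omega) _
          exact_mod_cast h5.trans h6
        rw [h3]
        push_cast
        linarith
    exact h1 d ha

lemma choose_super (a b k : ℕ) (hk : 1 ≤ k) : a.choose k + b.choose k ≤ (a + b).choose k := by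
  obtain ⟨k, rfl⟩ := Nat.exists_eq_add_of_le' hk
  induction b with
  | zero => simp
  | succ b ih =>
    rw [← add_assoc, Nat.choose_succ_succ', Nat.choose_succ_succ']
    have h1 : b.choose k ≤ (a + b).choose k := Nat.choose_le_choose k (by omega)
    omega

theorem t_TYC : S_TYC := by
  classical
  intro k hk x0 γ _hx0 hγ
  have hk0 : (0 : ℝ) < k := by
    have : 0 < k := by omega
    exact_mod_cast this
  have hk2 : (2 : ℝ) ≤ k := by exact_mod_cast hk
  have hkf : (0 : ℝ) < (k.factorial : ℝ) := by exact_mod_cast Nat.factorial_pos k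
  set γ' : ℝ := min (1 / (4 * (k : ℝ) ^ 2)) (min (γ ^ 2 / (2 * k * (3 * k ^ 2 + 2)))
    ((γ / 4) ^ k / (4 * k.factorial))) with hγ'
  have hγ'0 : 0 < γ' := by positivity
  have hA : γ' ≤ 1 / (4 * (k : ℝ) ^ 2) := min_le_left _ _
  have hB : γ' ≤ γ ^ 2 / (2 * k * (3 * k ^ 2 + 2)) := (min_le_right _ _).trans (min_le_left _ _)
  have hC : γ' ≤ (γ / 4) ^ k / (4 * k.factorial) := (min_le_right _ _).trans (min_le_right _ _)
  have hA' : γ' * (4 * (k : ℝ) ^ 2) ≤ 1 := by
    rwa [le_div_iff₀ (by positivity)] at hA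
  have hk4 : (4 : ℝ) ≤ (k : ℝ) ^ 2 := by nlinarith
  have hkγ : k * γ' ≤ 1 / 8 := by nlinarith
  refine ⟨γ', hγ'0, max 1 ⌈4 * (k : ℝ) / γ⌉₊, ?_⟩
  intro n hn F hF s _hs hks hFc y hy hsum hQ hE
  have hn1 : 1 ≤ n := (le_max_left _ _).trans hn
  have hn0 : (0 : ℝ) < n := by exact_mod_cast hn1
  have hn2 : 4 * (k : ℝ) ≤ γ * n := by
    have h1 : (⌈4 * (k : ℝ) / γ⌉₊ : ℝ) ≤ n := by exact_mod_cast (le_max_right _ _).trans hn
    have h2 := (Nat.le_ceil (4 * (k : ℝ) / γ)).trans h1
    rw [div_le_iff₀ hγ] at h2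
    linarith
  set U : Finset (Fin n) := univ.filter (fun v => |y v - 1 / (k : ℝ)| ≤ γ') with hU
  set Q : Finset (Fin n) := univ.filter (fun v => γ' < y v ∧ γ' < |y v - 1 / (k : ℝ)|) with hQdef
  -- the edges which are not inside `U`
  have hbad : ((F.filter (fun e => ¬ e ⊆ U)).card : ℝ) ≤ 2 * γ' * (n : ℝ) ^ k := by
    have h1 : F.filter (fun e => ¬ e ⊆ U) ⊆ F.filter (fun e => ∑ v ∈ e, y v < 1) ∪
        Q.biUnion (fun v => F.filter (fun e => v ∈ e)) := by
      intro e he
      obtain ⟨he1, he2⟩ := mem_filter.mp he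
      by_cases h2 : ∃ v ∈ e, v ∈ Q
      · obtain ⟨v, hv1, hv2⟩ := h2
        exact mem_union_right _ (mem_biUnion.mpr ⟨v, hv2, mem_filter.mpr ⟨he1, hv1⟩⟩)
      · push Not at h2
        apply mem_union_left
        rw [mem_filter]
        refine ⟨he1, ?_⟩
        obtain ⟨v, hv1, hv2⟩ := not_subset.mp he2
        have h3 : y v ≤ γ' := by
          have h4 := h2 v hv1
          rw [hQdef, mem_filter] at h4
          rw [hU, mem_filter] at hv2
          push Not at h4 hv2
          by_contra hcon
          push Not at hcon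
          exact absurd (h4 (mem_univ _) hcon) (not_le.mpr (hv2 (mem_univ _)))
        have h4 : ∀ w ∈ e, y w ≤ 1 / (k : ℝ) + γ' := by
          intro w hw
          have h5 := h2 w hw
          rw [hQdef, mem_filter] at h5
          push Not at h5
          by_cases h6 : γ' < y w
          · have h7 := (abs_le.mp (h5 (mem_univ _) h6)).2
            linarith
          · push Not at h6
            have : 0 ≤ 1 / (k : ℝ) := by positivity
            linarith
        rw [← add_sum_erase e y hv1]
        have h5 : ∑ w ∈ e.erase v, y w ≤ ((e.erase v).card : ℝ) * (1 / (k : ℝ) + γ') := by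
          have := sum_le_card_nsmul (e.erase v) y (1 / (k : ℝ) + γ')
            (fun w hw => h4 w (mem_of_mem_erase hw))
          rwa [nsmul_eq_mul] at this
        rw [card_erase_of_mem hv1, hF e he1] at h5
        have h6 : ((k - 1 : ℕ) : ℝ) = k - 1 := by
          rw [Nat.cast_sub (by omega)]
          simp
        rw [h6] at h5
        have h7 : ((k : ℝ) - 1) * (1 / (k : ℝ) + γ') = 1 - 1 / k + (k - 1) * γ' := by
          field_simp
        rw [h7] at h5
        have h8 : k * γ' < 1 / (k : ℝ) := by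
          rw [lt_div_iff₀ hk0]
          nlinarith
        linarith
    have h2 : (Q.biUnion (fun v => F.filter (fun e => v ∈ e))).card ≤ Q.card * n ^ (k - 1) := by
      apply card_biUnion_le_card_mul
      intro v _
      have h3 : (F.filter (fun e => v ∈ e)).card ≤ ((univ : Finset (Fin n)).powersetCard
          (k - 1)).card := by
        apply card_le_card_of_injOn (fun e => e.erase v)
        · intro e he
          simp only [coe_filter, Set.mem_ofPred_eq] at he
          rw [mem_coe, mem_powersetCard]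
          refine ⟨subset_univ _, ?_⟩
          rw [card_erase_of_mem he.2, hF e he.1]
        · intro e he e' he' h
          simp only [coe_filter, Set.mem_ofPred_eq] at he he'
          simp only at h
          rw [← insert_erase he.2, h, insert_erase he'.2]
      refine h3.trans ?_
      rw [card_powersetCard, card_univ, Fintype.card_fin]
      exact Nat.choose_le_pow _ _
    have h3 : ((Q.biUnion (fun v => F.filter (fun e => v ∈ e))).card : ℝ) ≤
        γ' * (n : ℝ) ^ k := by
      calc ((Q.biUnion (fun v => F.filter (fun e => v ∈ e))).card : ℝ)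
          ≤ (Q.card : ℝ) * (n : ℝ) ^ (k - 1) := by exact_mod_cast h2
        _ ≤ γ' * n * (n : ℝ) ^ (k - 1) := by gcongr
        _ = γ' * (n : ℝ) ^ k := by
            rw [mul_assoc, ← pow_succ']
            congr 2
            omega
    calc ((F.filter (fun e => ¬ e ⊆ U)).card : ℝ)
        ≤ ((F.filter (fun e => ∑ v ∈ e, y v < 1)).card : ℝ) +
          ((Q.biUnion (fun v => F.filter (fun e => v ∈ e))).card : ℝ) := by
          exact_mod_cast (card_le_card h1).trans (card_union_le _ _)
      _ ≤ γ' * (n : ℝ) ^ k + γ' * (n : ℝ) ^ k := add_le_add hE h3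
      _ = _ := by ring
  -- the non-edges inside `U`
  set N := (U.powersetCard k).filter (fun e => e ∉ F) with hN
  have hcard : (F.card : ℝ) + N.card ≤ (U.card.choose k : ℝ) + 2 * γ' * (n : ℝ) ^ k := by
    have h1 : (U.powersetCard k).card = ((U.powersetCard k).filter (fun e => e ∈ F)).card +
        N.card := (card_filter_add_card_filter_not (s := U.powersetCard k) (fun e => e ∈ F)).symm
    have h2 : F.card = (F.filter (fun e => e ⊆ U)).card + (F.filter (fun e => ¬ e ⊆ U)).card :=
      (card_filter_add_card_filter_not _).symm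
    have h3 : (F.filter (fun e => e ⊆ U)).card ≤
        ((U.powersetCard k).filter (fun e => e ∈ F)).card := by
      apply card_le_card
      intro e he
      obtain ⟨he1, he2⟩ := mem_filter.mp he
      exact mem_filter.mpr ⟨mem_powersetCard.mpr ⟨he2, hF e he1⟩, he1⟩
    rw [card_powersetCard] at h1
    have h4 : F.card + N.card ≤ U.card.choose k + (F.filter (fun e => ¬ e ⊆ U)).card := by omega
    have h5 : (F.card : ℝ) + N.card ≤ (U.card.choose k : ℝ) +
        ((F.filter (fun e => ¬ e ⊆ U)).card : ℝ) := by exact_mod_cast h4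
    linarith
  set m : ℕ := k * (s + 1) - 1 with hm
  have hFc' : (m.choose k : ℝ) ≤ F.card := by exact_mod_cast hFc
  have hmks : k * s ≤ m := by
    rw [hm, Nat.mul_add]
    omega
  have hUn : U.card ≤ n := by
    have := card_le_univ U
    rwa [Fintype.card_fin] at this
  have hksn : (k : ℝ) * (s + 1) ≤ n := by exact_mod_cast hks
  -- upper bound of `|U|`
  have hUup : (U.card : ℝ) ≤ k * s + 3 * (k : ℝ) ^ 2 * γ' * n := by
    have h1 : (U.card : ℝ) * (1 / (k : ℝ) - γ') ≤ s + γ' * n := by
      calc (U.card : ℝ) * (1 / (k : ℝ) - γ') = ∑ _v ∈ U, (1 / (k : ℝ) - γ') := by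
            rw [sum_const, nsmul_eq_mul]
        _ ≤ ∑ v ∈ U, y v := by
            apply sum_le_sum
            intro v hv
            have := (abs_le.mp (mem_filter.mp hv).2).1
            linarith
        _ ≤ ∑ v, y v := sum_le_sum_of_subset_of_nonneg (subset_univ _) (fun i _ _ => hy i)
        _ ≤ _ := hsum
    have h2 : (U.card : ℝ) * (1 - k * γ') ≤ k * s + k * γ' * n := by
      have h3 := mul_le_mul_of_nonneg_left h1 hk0.le
      have h4 : (k : ℝ) * ((U.card : ℝ) * (1 / (k : ℝ) - γ')) = (U.card : ℝ) * (1 - k * γ') := by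
        field_simp
      rw [h4] at h3
      linarith
    have h3 : (U.card : ℝ) ≤ n := by exact_mod_cast hUn
    have h4 : (U.card : ℝ) * (k * γ') ≤ n * (k * γ') :=
      mul_le_mul_of_nonneg_right h3 (by positivity)
    have h5 : (k : ℝ) ≤ (k : ℝ) ^ 2 := by nlinarith
    have h6 : (0 : ℝ) ≤ γ' * n := by positivity
    nlinarith [mul_le_mul_of_nonneg_right h5 h6]
  -- few non-edges
  have hNc : (N.card : ℝ) ≤ (3 * (k : ℝ) ^ 2 + 2) * γ' * (n : ℝ) ^ k := by
    have h1 := choose_diff U.card m n k (by omega) hUn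
    have h2 : ((U.card - m : ℕ) : ℝ) ≤ 3 * (k : ℝ) ^ 2 * γ' * n := by
      have h3 : (0 : ℝ) ≤ 3 * (k : ℝ) ^ 2 * γ' * n := by positivity
      rcases le_total U.card m with h4 | h4
      · rw [Nat.sub_eq_zero_of_le h4]
        simpa using h3
      · rw [Nat.cast_sub h4]
        have h5 : ((k * s : ℕ) : ℝ) ≤ m := by exact_mod_cast hmks
        push_cast at h5
        linarith
    have h3 : ((U.card - m : ℕ) : ℝ) * (n : ℝ) ^ (k - 1) ≤ 3 * (k : ℝ) ^ 2 * γ' * (n : ℝ) ^ k := by
      calc ((U.card - m : ℕ) : ℝ) * (n : ℝ) ^ (k - 1)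
          ≤ 3 * (k : ℝ) ^ 2 * γ' * n * (n : ℝ) ^ (k - 1) := by gcongr
        _ = 3 * (k : ℝ) ^ 2 * γ' * (n : ℝ) ^ k := by
            rw [mul_assoc, ← pow_succ']
            congr 2
            omega
    linarith
  -- the vertices with few missing sets
  set T : Finset (Fin n) := U.filter (fun v => (ms k F U v : ℝ) ≤ γ * (n : ℝ) ^ (k - 1)) with hT
  have hpow : (0 : ℝ) < (n : ℝ) ^ (k - 1) := by positivity
  have hUT : ((U \ T).card : ℝ) ≤ γ / 2 * n := by
    have h1 : ((U \ T).card : ℝ) * (γ * (n : ℝ) ^ (k - 1)) ≤ ∑ v ∈ U, (ms k F U v : ℝ) := by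
      calc ((U \ T).card : ℝ) * (γ * (n : ℝ) ^ (k - 1))
          = ∑ _v ∈ U \ T, γ * (n : ℝ) ^ (k - 1) := by rw [sum_const, nsmul_eq_mul]
        _ ≤ ∑ v ∈ U \ T, (ms k F U v : ℝ) := by
            apply sum_le_sum
            intro v hv
            obtain ⟨h2, h3⟩ := mem_sdiff.mp hv
            rw [hT, mem_filter] at h3
            push Not at h3
            exact (h3 h2).le
        _ ≤ _ := sum_le_sum_of_subset_of_nonneg sdiff_subset (fun i _ _ => Nat.cast_nonneg _)
    have h2 : ∑ v ∈ U, (ms k F U v : ℝ) ≤ k * ((3 * (k : ℝ) ^ 2 + 2) * γ' * (n : ℝ) ^ k) := by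
      have h3 : ((∑ v ∈ U, ms k F U v : ℕ) : ℝ) ≤ ((k * N.card : ℕ) : ℝ) := by
        exact_mod_cast ms_sum k (by omega) F U
      push_cast at h3
      exact h3.trans (mul_le_mul_of_nonneg_left hNc hk0.le)
    have h3 : (k : ℝ) * ((3 * (k : ℝ) ^ 2 + 2) * γ') ≤ γ * (γ / 2) := by
      rw [le_div_iff₀ (by positivity)] at hB
      linarith
    have h4 : ((U \ T).card : ℝ) * (γ * (n : ℝ) ^ (k - 1)) ≤ γ / 2 * n * (γ * (n : ℝ) ^ (k - 1)) := by
      calc ((U \ T).card : ℝ) * (γ * (n : ℝ) ^ (k - 1))
          ≤ k * ((3 * (k : ℝ) ^ 2 + 2) * γ' * (n : ℝ) ^ k) := h1.trans h2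
        _ = k * ((3 * (k : ℝ) ^ 2 + 2) * γ') * (n : ℝ) ^ k := by ring
        _ ≤ γ * (γ / 2) * (n : ℝ) ^ k := by gcongr
        _ = γ / 2 * n * (γ * (n : ℝ) ^ (k - 1)) := by
            have : (n : ℝ) ^ k = n * (n : ℝ) ^ (k - 1) := by
              rw [← pow_succ']
              congr 1
              omega
            rw [this]
            ring
    exact le_of_mul_le_mul_right h4 (by positivity)
  -- lower bound of `|U|`
  have hUlow : (k : ℝ) * s - γ / 2 * n ≤ U.card := by
    by_contra hcon
    push Not at hcon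
    have h1 : U.card ≤ k * s := by
      have : (U.card : ℝ) ≤ ((k * s : ℕ) : ℝ) := by
        push_cast
        have : 0 ≤ γ / 2 * n := by positivity
        linarith
      exact_mod_cast this
    obtain ⟨t, ht⟩ := Nat.exists_eq_add_of_le h1
    have h2 : γ / 2 * n < t := by
      have h3 : ((k * s : ℕ) : ℝ) = U.card + t := by exact_mod_cast ht
      push_cast at h3
      linarith
    have h3 : U.card.choose k + t.choose k ≤ m.choose k :=
      (choose_super _ _ _ (by omega)).trans (ht ▸ Nat.choose_le_choose k hmks)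
    have h4 : (t.choose k : ℝ) ≤ 2 * γ' * (n : ℝ) ^ k := by
      have h5 : (U.card.choose k : ℝ) + t.choose k ≤ m.choose k := by exact_mod_cast h3
      have h6 : (0 : ℝ) ≤ N.card := Nat.cast_nonneg _
      linarith
    have h5 : ((t + 1 - k : ℕ) : ℝ) ^ k ≤ k.factorial * (t.choose k : ℝ) := by
      have := Nat.pow_le_choose (α := ℝ) k t
      have h7 : ((t + 1 - k : ℕ) : ℝ) ^ k / k.factorial ≤ t.choose k := this
      rw [div_le_iff₀ hkf] at h7
      linarith
    have h6 : γ / 4 * n ≤ ((t + 1 - k : ℕ) : ℝ) := by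
      have h7 : k ≤ t + 1 := by
        have : (k : ℝ) ≤ ((t + 1 : ℕ) : ℝ) := by
          push_cast
          linarith
        exact_mod_cast this
      rw [Nat.cast_sub h7]
      push_cast
      linarith
    have h7 : (γ / 4 * n) ^ k ≤ k.factorial * (2 * γ' * (n : ℝ) ^ k) := by
      calc (γ / 4 * n) ^ k ≤ ((t + 1 - k : ℕ) : ℝ) ^ k := pow_le_pow_left₀ (by positivity) h6 _
        _ ≤ k.factorial * (t.choose k : ℝ) := h5
        _ ≤ _ := by gcongr
    rw [mul_pow] at h7
    have h8 : (γ / 4) ^ k ≤ k.factorial * (2 * γ') := by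
      have h9 : (0 : ℝ) < (n : ℝ) ^ k := by positivity
      apply le_of_mul_le_mul_right _ h9
      calc (γ / 4) ^ k * (n : ℝ) ^ k ≤ k.factorial * (2 * γ' * (n : ℝ) ^ k) := h7
        _ = _ := by ring
    rw [le_div_iff₀ (by positivity)] at hC
    have h9 : 0 < (γ / 4) ^ k := by positivity
    nlinarith
  refine ⟨T, ?_, fun v hv => ?_⟩
  · have h1 : (T.card : ℝ) = U.card - (U \ T).card := by
      have hTU : T ⊆ U := filter_subset _ _
      have h2 := card_sdiff_add_card_eq_card hTU
      have h3 : ((U \ T).card : ℝ) + T.card = U.card := by exact_mod_cast h2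
      linarith
    rw [h1]
    linarith
  · obtain ⟨_, h2⟩ := mem_filter.mp hv
    refine le_trans ?_ h2
    exact_mod_cast ms_mono k F (filter_subset _ _) v

end Pool.Agent.Q150.XM
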